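import Pool.Agent.Helper32_OMP.BTools
import Mathlib.RingTheory.Etale.Basic
import Mathlib.RingTheory.Etale.Kaehler

/-!
# Module ROOT1
-/

set_option autoImplicit false

namespace Pool.Agent.Helper32_OMP.H66

open MvPolynomial Finset Pool.Agent.Helper6_Mono Pool.Agent.Helper32_OMP

/-- partial derivatives extend to the field of fractions -/
theorem exists_frac_deriv (σ : Type) (i : σ) :
    ∃ D : Derivation ℂ (FractionRing (MvPolynomial σ ℂ)) (FractionRing (MvPolynomial σ ℂ)),
      ∀ p, D (algebraMap (MvPolynomial σ ℂ) _ p) = algebraMap (MvPolynomial σ ℂ) _ (pderiv i p) := by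
  have : Algebra.FormallyEtale (MvPolynomial σ ℂ) (FractionRing (MvPolynomial σ ℂ)) :=
    Algebra.FormallyEtale.of_isLocalization (nonZeroDivisors (MvPolynomial σ ℂ))
  let D : Derivation ℂ (MvPolynomial σ ℂ) (FractionRing (MvPolynomial σ ℂ)) :=
    (Algebra.linearMap (MvPolynomial σ ℂ) (FractionRing (MvPolynomial σ ℂ))).compDer (pderiv i)
  let e := KaehlerDifferential.tensorKaehlerEquivOfFormallyEtale ℂ (MvPolynomial σ ℂ)
    (FractionRing (MvPolynomial σ ℂ))
  let f : TensorProduct (MvPolynomial σ ℂ) (FractionRing (MvPolynomial σ ℂ))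
      (Ω[(MvPolynomial σ ℂ)⁄ℂ]) →ₗ[FractionRing (MvPolynomial σ ℂ)]
      (FractionRing (MvPolynomial σ ℂ)) := LinearMap.liftBaseChange _ D.liftKaehlerDifferential
  refine ⟨(f ∘ₗ e.symm.toLinearMap).compDer (KaehlerDifferential.D ℂ _), ?_⟩
  intro a
  change f (e.symm (KaehlerDifferential.D ℂ _ (algebraMap _ _ a))) = _
  rw [KaehlerDifferential.tensorKaehlerEquivOfFormallyEtale_symm_D_algebraMap]
  simp [f, D]

/-- MODULE ROOT1 -/
theorem root1 : Root1Stmt := by
  intro σ _ f q f' a ha hq hf hqf'
  let A := MvPolynomial σ ℂ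
  let K := FractionRing A
  have hinj : Function.Injective (algebraMap A K) := IsFractionRing.injective A K
  choose D hD using exists_frac_deriv σ
  have hprime : Prime q := UniqueFactorizationMonoid.irreducible_iff_prime.mp hq
  have hq0 : q ≠ 0 := hq.ne_zero
  have hf'0 : f' ≠ 0 := fun h => hqf' (by rw [h]; exact dvd_zero q)
  have hf0 : f ≠ 0 := by
    rw [hf]
    exact mul_ne_zero (pow_ne_zero _ hq0) hf'0
  have hF : algebraMap A K f ≠ 0 := fun h => hf0 (hinj (by rw [h, map_zero]))
  have hQ : algebraMap A K q ≠ 0 := fun h => hq0 (hinj (by rw [h, map_zero]))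
  have hF' : algebraMap A K f' ≠ 0 := fun h => hf'0 (hinj (by rw [h, map_zero]))
  have haC : (a : ℂ) ≠ 0 := by
    exact_mod_cast ha.ne'
  set s : ℂ := -(1 / (a : ℂ)) with hs
  let act : A →ₐ[ℂ] Module.End ℂ K := (Algebra.lmul ℂ K).comp (IsScalarTower.toAlgHom ℂ A K)
  have hact : ∀ p b, act p b = algebraMap A K p * b := fun p b => rfl
  let d : σ → Module.End ℂ K := fun i =>
    (D i : K →ₗ[ℂ] K) + s • Algebra.lmul ℂ K (D i (algebraMap A K f) / algebraMap A K f)
  have hd : ∀ i b, d i b = D i b + s • ((D i (algebraMap A K f) / algebraMap A K f) * b) :=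
    fun i b => rfl
  let psi : ℕ → K := fun n => (algebraMap A K f)⁻¹ ^ n
  have hCs : ∀ (c : ℂ) (x : K), c • x = algebraMap ℂ K c * x := fun c x => Algebra.smul_def c x
  -- logarithmic derivative of `f`
  have hlog : ∀ i, s • (D i (algebraMap A K f) / algebraMap A K f) =
      -(D i (algebraMap A K q) / algebraMap A K q) +
        s • (D i (algebraMap A K f') / algebraMap A K f') := by
    intro i
    have h1 : D i (algebraMap A K f) = (a : K) * (algebraMap A K q) ^ (a - 1) *
        D i (algebraMap A K q) * algebraMap A K f' +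
        (algebraMap A K q) ^ a * D i (algebraMap A K f') := by
      rw [hf, map_mul, map_pow, Derivation.leibniz, Derivation.leibniz_pow, smul_eq_mul,
        smul_eq_mul, smul_eq_mul, nsmul_eq_mul]
      ring
    have h2 : algebraMap A K f = (algebraMap A K q) ^ a * algebraMap A K f' := by
      rw [hf, map_mul, map_pow]
    have h3 : (algebraMap A K q) ^ a = algebraMap A K q * (algebraMap A K q) ^ (a - 1) := by
      rw [← pow_succ']
      congr 1
      omega
    have h4 : D i (algebraMap A K f) / algebraMap A K f =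
        (a : K) * (D i (algebraMap A K q) / algebraMap A K q) +
          D i (algebraMap A K f') / algebraMap A K f' := by
      rw [h1, h2]
      have h5 : (algebraMap A K q) ^ (a - 1) ≠ 0 := pow_ne_zero _ hQ
      rw [h3]
      field_simp
    rw [h4, smul_add]
    congr 1
    have h6 : algebraMap ℂ K s * (a : K) = -1 := by
      rw [← map_natCast (algebraMap ℂ K) a, ← map_mul, hs]
      rw [show -(1 / (a : ℂ)) * (a : ℂ) = -1 by field_simp, map_neg, map_one]
    rw [hCs, ← mul_assoc, h6, neg_one_mul]
  let N : Submodule ℂ K :=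
    { carrier := {h | ∃ u v : A, ¬ q ∣ v ∧ h * algebraMap A K v = algebraMap A K (q * u)}
      zero_mem' := ⟨0, 1, hprime.not_dvd_one, by simp⟩
      add_mem' := by
        rintro h1 h2 ⟨u1, v1, hv1, e1⟩ ⟨u2, v2, hv2, e2⟩
        refine ⟨u1 * v2 + u2 * v1, v1 * v2, ?_, ?_⟩
        · intro h
          rcases hprime.dvd_or_dvd h with h | h
          · exact hv1 h
          · exact hv2 h
        · rw [map_mul] at e1 e2
          simp only [map_mul, map_add]
          linear_combination algebraMap A K v2 * e1 + algebraMap A K v1 * e2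
      smul_mem' := by
        rintro c h ⟨u, v, hv, e⟩
        refine ⟨C c * u, v, hv, ?_⟩
        have h1 : algebraMap A K (C c) = algebraMap ℂ K c := by
          rw [← algebraMap_eq]
          exact (IsScalarTower.algebraMap_apply ℂ A K c).symm
        rw [map_mul] at e
        rw [hCs, map_mul, map_mul, h1]
        linear_combination algebraMap ℂ K c * e }
  have key := bfun_mem f s act d ?_ psi ?_ ?_ N ?_ ?_ ?_
  · -- conclusion
    by_contra hne
    obtain ⟨u, v, hv, e⟩ := key
    apply hv
    have h1 : algebraMap A K (C ((bfun f).eval s)) = algebraMap ℂ K ((bfun f).eval s) := by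
      rw [← algebraMap_eq]
      exact (IsScalarTower.algebraMap_apply ℂ A K _).symm
    have h2 : algebraMap A K (C ((bfun f).eval s) * v) = algebraMap A K (q * u) := by
      rw [← e, map_mul, h1, hCs]
      show _ = _ * (algebraMap A K f)⁻¹ ^ 0 * _
      rw [pow_zero, mul_one]
    have h3 := hinj h2
    have h4 : v = q * (u * C ((bfun f).eval s)⁻¹) := by
      have h5 : C ((bfun f).eval s) * C ((bfun f).eval s)⁻¹ = (1 : A) := by
        rw [← C_mul, mul_inv_cancel₀ hne, C_1]
      linear_combination C ((bfun f).eval s)⁻¹ * h3 - v * h5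
    exact ⟨_, h4⟩
  · -- leibX
    intro i j b
    rw [hd, hact, hact, hact, hd, Derivation.leibniz, smul_eq_mul, smul_eq_mul, hD, hCs, hCs]
    ring
  · intro n
    rw [hact]
    show _ * (algebraMap A K f)⁻¹ ^ (n + 1) = (algebraMap A K f)⁻¹ ^ n
    rw [pow_succ', ← mul_assoc, mul_inv_cancel₀ hF, one_mul]
  · intro i n
    rw [hd, hact]
    show D i ((algebraMap A K f)⁻¹ ^ n) + _ = (s - (n : ℂ)) • (_ * (algebraMap A K f)⁻¹ ^ (n + 1))
    have h1 : ∀ n : ℕ, D i ((algebraMap A K f)⁻¹ ^ n) =
        -((n : K) * (algebraMap A K f)⁻¹ ^ (n + 1) * D i (algebraMap A K f)) := by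
      intro n
      induction n with
      | zero => simp
      | succ n ih =>
        have h2 : D i ((algebraMap A K f) * (algebraMap A K f)⁻¹ ^ (n + 1)) =
            D i ((algebraMap A K f)⁻¹ ^ n) := by
          congr 1
          rw [pow_succ', ← mul_assoc, mul_inv_cancel₀ hF, one_mul]
        rw [Derivation.leibniz, ih, smul_eq_mul, smul_eq_mul] at h2
        push_cast
        have h3 : (algebraMap A K f)⁻¹ ^ (n + 1 + 1) =
          (algebraMap A K f)⁻¹ ^ (n + 1) * (algebraMap A K f)⁻¹ := pow_succ _ _
        rw [h3]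
        have h4 : (algebraMap A K f)⁻¹ * algebraMap A K f = 1 := inv_mul_cancel₀ hF
        linear_combination (algebraMap A K f)⁻¹ * h2 -
          D i ((algebraMap A K f)⁻¹ ^ (n + 1)) * h4
    rw [h1, hCs, hCs, ← hD, map_sub, map_natCast, div_eq_mul_inv, pow_succ]
    ring
  · -- stable under `X i`
    rintro i b ⟨u, v, hv, e⟩
    refine ⟨X i * u, v, hv, ?_⟩
    rw [hact]
    rw [map_mul] at e
    rw [map_mul, map_mul]
    linear_combination algebraMap A K (X i) * e
  · -- stable under `d i`
    rintro i b ⟨u, v, hv, e⟩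
    refine ⟨f' * (pderiv i u * v - u * pderiv i v) + C s * pderiv i f' * u * v, v * v * f', ?_, ?_⟩
    · intro h
      rcases hprime.dvd_or_dvd h with h | h
      · rcases hprime.dvd_or_dvd h with h | h
        · exact hv h
        · exact hv h
      · exact hqf' h
    · have h1 : algebraMap A K (C s) = algebraMap ℂ K s := by
        rw [← algebraMap_eq]
        exact (IsScalarTower.algebraMap_apply ℂ A K _).symm
      have h2 := congrArg (D i) e
      rw [map_mul (algebraMap A K), Derivation.leibniz, Derivation.leibniz, smul_eq_mul,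
        smul_eq_mul, smul_eq_mul, smul_eq_mul] at h2
      rw [map_mul] at e
      have h3 := hlog i
      rw [hd, ← smul_mul_assoc, h3, hCs]
      simp only [map_mul, map_add, map_sub, h1]
      have e1 : D i (algebraMap A K f') = algebraMap A K (pderiv i f') := hD i f'
      have e2 : D i (algebraMap A K u) = algebraMap A K (pderiv i u) := hD i u
      have e3 : D i (algebraMap A K v) = algebraMap A K (pderiv i v) := hD i v
      have h4 : D i (algebraMap A K q) / algebraMap A K q * algebraMap A K q =
        D i (algebraMap A K q) := div_mul_cancel₀ _ hQ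
      have h5 : D i (algebraMap A K f') / algebraMap A K f' * algebraMap A K f' =
        D i (algebraMap A K f') := div_mul_cancel₀ _ hF'
      set x := D i (algebraMap A K q) / algebraMap A K q with hx
      set y := D i (algebraMap A K f') / algebraMap A K f' with hy
      set V := algebraMap A K v
      set U := algebraMap A K u
      set Q := algebraMap A K q
      set F := algebraMap A K f'
      linear_combination V * F * h2 - F * (D i V + x * V) * e - F * U * V * h4 +
        algebraMap ℂ K s * b * V * V * h5 + algebraMap ℂ K s * V * D i F * e +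
        Q * algebraMap ℂ K s * V * U * e1 + Q * F * V * e2 - Q * F * U * e3
  · refine ⟨q ^ (a - 1) * f', 1, hprime.not_dvd_one, ?_⟩
    rw [hact]
    show algebraMap A K f * (algebraMap A K f)⁻¹ ^ 0 * algebraMap A K 1 = _
    rw [pow_zero, mul_one, map_one, mul_one, hf, ← mul_assoc, ← pow_succ']
    congr 3
    omega

end Pool.Agent.Helper32_OMP.H66
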