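import Pool.Agent.Helper66_OMP.Zero

/-!
# Module COP
-/

set_option autoImplicit false

namespace Pool.Agent.Helper32_OMP.H66

open MvPolynomial Finset Pool.Agent.Helper6_Mono Pool.Agent.Helper32_OMP

theorem snc_ne {σ ι : Type} {g : ι → MvPolynomial σ ℂ} {z : σ → ℂ} (h : SncAt g z) {i : ι}
    (hi : eval z (g i) = 0) : ∃ l, eval z (pderiv l (g i)) ≠ 0 := by
  by_contra hcon
  push Not at hcon
  exact LinearIndependent.ne_zero (⟨i, hi⟩ : {i // eval z (g i) = 0}) h (funext hcon)

theorem snc_pair {σ ι : Type} {g : ι → MvPolynomial σ ℂ} {z : σ → ℂ} (h : SncAt g z) {i j : ι}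
    (hij : i ≠ j) (hi : eval z (g i) = 0) (hj : eval z (g j) = 0) {a b : ℂ}
    (hab : ∀ l, b * eval z (pderiv l (g i)) = a * eval z (pderiv l (g j))) : a = 0 ∧ b = 0 := by
  classical
  have h1 := linearIndependent_iff.mp h
    (Finsupp.single (⟨i, hi⟩ : {i // eval z (g i) = 0}) b -
      Finsupp.single (⟨j, hj⟩ : {i // eval z (g i) = 0}) a) (by
    rw [map_sub, Finsupp.linearCombination_single, Finsupp.linearCombination_single]
    funext l
    simp only [Pi.sub_apply, Pi.smul_apply, smul_eq_mul, Pi.zero_apply]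
    rw [hab l, sub_self])
  have hne : (⟨i, hi⟩ : {i // eval z (g i) = 0}) ≠ ⟨j, hj⟩ := by
    intro h2
    exact hij (congrArg Subtype.val h2)
  constructor
  · have h2 := DFunLike.congr_fun h1 (⟨j, hj⟩ : {i // eval z (g i) = 0})
    rw [Finsupp.sub_apply, Finsupp.single_eq_same, Finsupp.single_eq_of_ne' hne] at h2
    simpa using h2
  · have h2 := DFunLike.congr_fun h1 (⟨i, hi⟩ : {i // eval z (g i) = 0})
    rw [Finsupp.sub_apply, Finsupp.single_eq_same, Finsupp.single_eq_of_ne hne] at h2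
    simpa using h2

theorem snc_dvd {σ ι : Type} {g : ι → MvPolynomial σ ℂ} {z : σ → ℂ} (h : SncAt g z) {i j : ι}
    (hij : i ≠ j) {q : MvPolynomial σ ℂ} (hq : eval z q = 0) (hi : q ∣ g i) (hj : q ∣ g j) :
    False := by
  obtain ⟨a, ha⟩ := hi
  obtain ⟨b, hb⟩ := hj
  have hi0 : eval z (g i) = 0 := by rw [ha, map_mul, hq, zero_mul]
  have hj0 : eval z (g j) = 0 := by rw [hb, map_mul, hq, zero_mul]
  have h1 : ∀ l, eval z (pderiv l (g i)) = eval z a * eval z (pderiv l q) := by
    intro l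
    rw [ha, Derivation.leibniz, smul_eq_mul, smul_eq_mul, map_add, map_mul, map_mul, hq, zero_mul,
      zero_add]
  have h2 : ∀ l, eval z (pderiv l (g j)) = eval z b * eval z (pderiv l q) := by
    intro l
    rw [hb, Derivation.leibniz, smul_eq_mul, smul_eq_mul, map_add, map_mul, map_mul, hq, zero_mul,
      zero_add]
  have h3 := snc_pair h hij hi0 hj0 (a := eval z a) (b := eval z b) (by
    intro l
    rw [h1, h2]
    ring)
  obtain ⟨l, hl⟩ := snc_ne h hi0
  apply hl
  rw [h1, h3.1, zero_mul]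

theorem isUnit_or {σ : Type} (q : MvPolynomial σ ℂ) : q = 0 ∨ IsUnit q ∨ ∀ c : ℂ, q ≠ C c := by
  by_cases h : ∃ c : ℂ, q = C c
  · obtain ⟨c, rfl⟩ := h
    by_cases hc : c = 0
    · left
      rw [hc, C_0]
    · right
      left
      exact (isUnit_iff_ne_zero.mpr hc).map C
  · right
    right
    push Not at h
    exact h

/-- MODULE COP -/
theorem cop (hz : ZeroStmt) : CopStmt := by
  intro σ ι _ hcard g d hg
  have hne : ∀ i, g i ≠ 0 := by
    intro i hi
    have : Nonempty σ := Fintype.card_pos_iff.mp (by omega)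
    have h1 := hg.snc (fun _ => 1) (by
      intro h
      have := congrFun h (Classical.arbitrary σ)
      simp at this)
    obtain ⟨l, hl⟩ := snc_ne h1 (i := i) (by rw [hi, map_zero])
    apply hl
    rw [hi, map_zero, map_zero]
  refine ⟨hne, ?_⟩
  intro i j hij q hqi hqj
  rcases isUnit_or q with h | h | h
  · exfalso
    apply hne i
    rw [h] at hqi
    exact zero_dvd_iff.mp hqi
  · exact h
  · exfalso
    obtain ⟨z, hz1, hz2⟩ := hz σ hcard q h {0} (Set.finite_singleton 0)
    exact snc_dvd (hg.snc z hz1) hij hz2 hqi hqj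

end Pool.Agent.Helper32_OMP.H66
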