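import Pool.Agent.Helper66_OMP.LinfA

/-!
# Module LINF
-/

set_option autoImplicit false

namespace Pool.Agent.Helper32_OMP.H66

open MvPolynomial Finset Pool.Agent.Helper6_Mono Pool.Agent.Helper32_OMP

/-- the linear case: the gradients at the origin are linearly independent -/
theorem snc_zero {σ ι : Type} [Fintype σ] [Fintype ι] {g : ι → MvPolynomial σ ℂ} {d : ι → ℕ}
    (hg : IsOrd g d) (hd : ∀ i, d i = 1) (hcard : Fintype.card ι ≤ Fintype.card σ) :
    SncAt g 0 := by
  classical
  -- the gradients are constant
  have hgrad : ∀ i l z, eval z (pderiv l (g i)) = coeff 0 (pderiv l (g i)) := by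
    intro i l z
    have h1 : (pderiv l (g i)).IsHomogeneous 0 := by
      have := (hg.hom i).pderiv (i := l)
      rwa [hd i] at this
    have h2 : pderiv l (g i) = C (coeff 0 (pderiv l (g i))) := by
      rw [← homogeneousComponent_zero]
      exact (homogeneousComponent_eq_self h1).symm
    rw [h2, eval_C, coeff_C, if_pos rfl]
  set v : ι → σ → ℂ := fun i l => coeff 0 (pderiv l (g i)) with hv
  have hval : ∀ i z, eval z (g i) = ∑ l, z l * v i l := by
    intro i z
    have h1 := (hg.hom i).sum_X_mul_pderiv
    have h2 := congrArg (eval z) h1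
    rw [hd i, one_smul, map_sum] at h2
    rw [← h2]
    refine Finset.sum_congr rfl fun l _ => ?_
    rw [map_mul, eval_X, hgrad]
  have hv0 : ∀ i, eval (0 : σ → ℂ) (g i) = 0 := by
    intro i
    rw [hval]
    simp
  suffices h : LinearIndependent ℂ v by
    have h2 := h.comp (fun i : {i // eval (0 : σ → ℂ) (g i) = 0} => i.1) Subtype.val_injective
    rw [SncAt]
    have h3 : (fun i : {i // eval (0 : σ → ℂ) (g i) = 0} => fun l : σ =>
        eval (0 : σ → ℂ) (pderiv l (g i))) = v ∘ (fun i => i.1) := by
      funext i l
      exact hgrad i.1 l 0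
    rw [h3]
    exact h2
  by_cases hz : ∃ z : σ → ℂ, z ≠ 0 ∧ ∀ i, eval z (g i) = 0
  · obtain ⟨z, hz, hz0⟩ := hz
    have h1 := hg.snc z hz
    have h2 := h1.comp (fun i : ι => (⟨i, hz0 i⟩ : {i // eval z (g i) = 0}))
      (fun i j hij => congrArg Subtype.val hij)
    have h3 : (fun i : {i // eval z (g i) = 0} => fun l : σ => eval z (pderiv l (g i))) ∘
        (fun i : ι => (⟨i, hz0 i⟩ : {i // eval z (g i) = 0})) = v := by
      funext i l
      exact hgrad i l z
    rw [h3] at h2
    exact h2
  · push Not at hz
    let L : (σ → ℂ) →ₗ[ℂ] (ι → ℂ) :=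
      { toFun := fun z i => ∑ l, z l * v i l
        map_add' := by
          intro x y
          funext i
          rw [Pi.add_apply, ← Finset.sum_add_distrib]
          refine Finset.sum_congr rfl fun l _ => ?_
          rw [Pi.add_apply, add_mul]
        map_smul' := by
          intro c x
          funext i
          rw [Pi.smul_apply, smul_eq_mul, Finset.mul_sum, RingHom.id_apply]
          refine Finset.sum_congr rfl fun l _ => ?_
          rw [Pi.smul_apply, smul_eq_mul, mul_assoc] }
    have hLinj : Function.Injective L := by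
      rw [← LinearMap.ker_eq_bot, LinearMap.ker_eq_bot']
      intro z hz2
      by_contra hne
      obtain ⟨i, hi⟩ := hz z hne
      apply hi
      rw [hval]
      exact congrFun hz2 i
    have hle : Fintype.card σ ≤ Fintype.card ι := by
      have := LinearMap.finrank_le_finrank_of_injective hLinj
      rwa [Module.finrank_fintype_fun_eq_card, Module.finrank_fintype_fun_eq_card] at this
    have heq : Module.finrank ℂ (σ → ℂ) = Module.finrank ℂ (ι → ℂ) := by
      rw [Module.finrank_fintype_fun_eq_card, Module.finrank_fintype_fun_eq_card]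
      omega
    have hsurj : Function.Surjective L :=
      (LinearMap.injective_iff_surjective_of_finrank_eq_finrank heq).mp hLinj
    rw [Fintype.linearIndependent_iff]
    intro c hc i
    obtain ⟨z, hz⟩ := hsurj (Pi.single i 1)
    have h1 : ∑ j, c j * L z j = 0 := by
      show ∑ j, c j * ∑ l, z l * v j l = 0
      simp only [Finset.mul_sum]
      rw [Finset.sum_comm]
      refine Finset.sum_eq_zero fun l _ => ?_
      have h2 := congrFun hc l
      rw [Finset.sum_apply, Pi.zero_apply] at h2
      simp only [Pi.smul_apply, smul_eq_mul] at h2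
      calc ∑ j, c j * (z l * v j l) = z l * ∑ j, c j * v j l := by
            rw [Finset.mul_sum]
            exact Finset.sum_congr rfl fun j _ => by ring
        _ = 0 := by rw [h2, mul_zero]
    rw [hz] at h1
    simpa [Pi.single_apply] using h1

theorem isOrd_comp' {σ ι κ : Type} {g : ι → MvPolynomial σ ℂ} {d : ι → ℕ} (h : IsOrd g d)
    (e : κ ≃ ι) : IsOrd (fun i => g (e i)) (fun i => d (e i)) := isOrd_comp h e e.injective

/-- MODULE LINF -/
theorem linf (hL : LgenStmt) (hC : CopStmt) : LinfStmt := by
  classical
  intro σ ι _ _ _ hcard g d hg a ha β hβ H hH hT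
  obtain ⟨hne, hrel⟩ := hC σ ι hcard g d hg
  have hprod : ∏ i, g i ≠ 0 := Finset.prod_ne_zero_iff.mpr fun i _ => hne i
  have hβ0 : β ≠ 0 := by
    rintro rfl
    rw [zero_mul] at hβ
    have h1 : (Fintype.card σ : ℂ) = 0 := by linear_combination hβ
    have h2 : Fintype.card σ = 0 := by exact_mod_cast h1
    omega
  rw [TEq] at hT
  simp only [Pi.zero_apply, pow_zero, Finset.prod_const_one, mul_one, Nat.cast_zero,
    sub_zero] at hT
  have hdvd : ∀ i, g i ∣ ap H (g i) := by
    intro i
    have h1 : g i ∣ C (β * a i) * ap H (g i) * ∏ j ∈ univ.erase i, g j := by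
      rw [← Finset.add_sum_erase univ _ (mem_univ i)] at hT
      have h2 : C (β * a i) * ap H (g i) * ∏ j ∈ univ.erase i, g j =
          (∏ i, g i) - (∏ i, g i) * dv H -
          ∑ x ∈ univ.erase i, C (β * a x) * ap H (g x) * ∏ j ∈ univ.erase x, g j := by
        linear_combination hT
      rw [h2]
      have h3 : g i ∣ ∏ i, g i := Finset.dvd_prod_of_mem g (mem_univ i)
      refine dvd_sub (dvd_sub h3 (h3.mul_right _)) (Finset.dvd_sum fun x hx => ?_)
      apply Dvd.dvd.mul_left
      exact Finset.dvd_prod_of_mem g (mem_erase.mpr ⟨(ne_of_mem_erase hx).symm, mem_univ i⟩)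
    have h4 : IsRelPrime (g i) (∏ j ∈ univ.erase i, g j) :=
      IsRelPrime.prod_right fun j hj => hrel i j (ne_of_mem_erase hj).symm
    have h5 := h4.dvd_of_dvd_mul_right h1
    have h6 : IsUnit (C (β * a i) : MvPolynomial σ ℂ) := by
      apply (isUnit_iff_ne_zero.mpr _).map C
      apply mul_ne_zero hβ0
      exact_mod_cast (ha i).ne'
    exact (h6.dvd_mul_left).mp h5
  by_cases hcon : (∀ i, d i = 1) ∧ Fintype.card ι ≤ Fintype.card σ
  · exact ⟨hcon.1, snc_zero hg hcon.1 hcon.2⟩
  exfalso
  -- reindexing
  obtain ⟨r, hr⟩ : ∃ r, Fintype.card ι = r + 1 :=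
    ⟨Fintype.card ι - 1, by have := Fintype.card_pos (α := ι); omega⟩
  let e : Fin (r + 1) ≃ ι := (Fintype.equivFinOfCardEq hr).symm
  obtain ⟨φ, cf, hcf⟩ := hL σ r (fun i => g (e i)) (fun i => d (e i)) (isOrd_comp' hg e) H
    (fun i => hdvd (e i))
  have hcf' : ∀ l, H l = φ * X l + ∑ S, cf S * (brM (rowsA fun i => g (e i)) S
      (E σ r (Sum.inl l))).det := by
    intro l
    rw [hcf l]
    congr 1
    refine Finset.sum_congr rfl fun S _ => ?_
    rw [E_eq]
  set D : (Fin (r + 1 + 1) → σ ⊕ Fin r) → σ → MvPolynomial σ ℂ := fun S l =>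
    (brM (rowsA fun i => g (e i)) S (E σ r (Sum.inl l))).det with hD
  have hcomp : ∀ l, H l = C (coeff 0 φ) * X l +
      ∑ S, homogeneousComponent 1 (cf S * D S l) := by
    intro l
    have h1 := congrArg (homogeneousComponent 1) (hcf' l)
    rw [homogeneousComponent_eq_self (hH l), map_add, map_sum] at h1
    rw [h1]
    congr 1
    have h2 := hc_mul (q := φ) (k := 0) (isHomogeneous_X ℂ l)
    rw [zero_add, homogeneousComponent_zero] at h2
    exact h2
  -- the components
  have hS : ∀ S, (∀ l, homogeneousComponent 1 (cf S * D S l) = 0) ∨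
      ∃ S' : Fin (r + 1 + 1) → σ, (S = fun k => Sum.inl (S' k)) ∧
        ∀ l, homogeneousComponent 1 (cf S * D S l) = C (coeff 0 (cf S)) * D S l := by
    intro S
    by_cases hinj : Function.Injective S
    swap
    · left
      intro l
      simp only [hD]
      rw [det_inj _ S _ hinj, mul_zero, map_zero]
    set K : ℕ := ∑ k, if (S k).isRight then 1 else 0 with hK
    set D0 : ℕ := ∑ i, (d (e i) - 1) with hD0
    have hhom : ∀ l, (D S l).IsHomogeneous (D0 + K) := fun l =>
      det_hom _ _ (fun i => hg.hom (e i)) (fun i => hg.pos (e i)) S l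
    have hbig : 2 ≤ D0 + K ∨ (D0 + K = 1 ∧ K = 0) := by
      by_cases hall : ∀ i, d i = 1
      · left
        have hcard2 : ¬ Fintype.card ι ≤ Fintype.card σ := fun h => hcon ⟨hall, h⟩
        have h1 : K + (∑ k, if (S k).isLeft then 1 else 0) = r + 1 + 1 := by
          rw [hK, ← Finset.sum_add_distrib]
          have : ∀ k ∈ (univ : Finset (Fin (r + 1 + 1))),
              ((if (S k).isRight = true then 1 else 0) +
                (if (S k).isLeft = true then 1 else 0) : ℕ) = 1 := by
            intro k _
            rcases S k with x | x <;> simp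
          rw [Finset.sum_congr rfl this]
          simp
        have h2 : (∑ k, if (S k).isLeft then 1 else 0) ≤ Fintype.card σ := by
          rw [← Finset.card_filter]
          rw [← Finset.card_image_of_injective _ hinj]
          have h3 : (univ.filter fun k => (S k).isLeft = true).image S ⊆
              (univ : Finset σ).map ⟨Sum.inl, Sum.inl_injective⟩ := by
            intro x hx
            rw [mem_image] at hx
            obtain ⟨k, hk, rfl⟩ := hx
            rw [mem_filter] at hk
            rw [mem_map]
            obtain ⟨y, hy⟩ := Sum.isLeft_iff.mp hk.2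
            exact ⟨y, mem_univ y, hy.symm⟩
          calc _ ≤ _ := Finset.card_le_card h3
            _ = _ := by rw [Finset.card_map, Finset.card_univ]
        omega
      · push Not at hall
        obtain ⟨i, hi⟩ := hall
        have h1 : 1 ≤ D0 := by
          have h2 : d (e (e.symm i)) - 1 ≤ D0 :=
            Finset.single_le_sum (f := fun i => d (e i) - 1) (fun _ _ => Nat.zero_le _)
              (mem_univ (e.symm i))
          rw [Equiv.apply_symm_apply] at h2
          have := hg.pos i
          omega
        omega
    rcases hbig with hbig | ⟨hbig, hK0⟩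
    · left
      intro l
      exact hc_mul_lt (hhom l) (by omega)
    · right
      have hleft : ∀ k, ∃ x, S k = Sum.inl x := by
        intro k
        have h1 := (Finset.sum_eq_zero_iff.mp hK0) k (mem_univ k)
        rcases hSk : S k with x | x
        · exact ⟨x, rfl⟩
        · rw [hSk] at h1
          simp at h1
      choose S' hS' using hleft
      refine ⟨S', funext hS', ?_⟩
      intro l
      have h1 := hhom l
      rw [hbig] at h1
      have h2 := hc_mul (q := cf S) (k := 0) h1
      rw [zero_add, homogeneousComponent_zero] at h2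
      exact h2
  have hS1 : ∀ S, ∑ l, pderiv l (homogeneousComponent 1 (cf S * D S l)) = 0 := by
    intro S
    rcases hS S with h | ⟨S', hS', h⟩
    · simp only [h, map_zero, Finset.sum_const_zero]
    · simp only [h, pderiv_C_mul]
      rw [← Finset.mul_sum, hS']
      have := det_div (fun i => g (e i)) S'
      simp only [hD]
      rw [this, mul_zero]
  have hS2 : ∀ S i, ∑ l, homogeneousComponent 1 (cf S * D S l) * pderiv l (g i) = 0 := by
    intro S i
    rcases hS S with h | ⟨S', hS', h⟩
    · simp only [h, zero_mul, Finset.sum_const_zero]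
    · simp only [h, mul_assoc]
      rw [← Finset.mul_sum, hS']
      have := det_kill (fun i => g (e i)) S' (e.symm i)
      simp only [Equiv.apply_symm_apply] at this
      simp only [hD]
      rw [this, mul_zero]
  set c : ℂ := coeff 0 φ with hc
  have hdv : dv H = C (c * Fintype.card σ) := by
    rw [dv]
    simp only [hcomp, map_add, map_sum, Finset.sum_add_distrib]
    rw [Finset.sum_comm]
    simp only [hS1, Finset.sum_const_zero, add_zero, pderiv_C_mul, pderiv_X_self, mul_one,
      Finset.sum_const, Finset.card_univ, nsmul_eq_mul]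
    rw [C_mul, map_natCast]
    ring
  have hap : ∀ i, ap H (g i) = C (c * d i) * g i := by
    intro i
    rw [ap]
    simp only [hcomp, add_mul, Finset.sum_add_distrib, Finset.sum_mul]
    rw [Finset.sum_comm (s := univ) (t := univ)
      (f := fun l S => homogeneousComponent 1 (cf S * D S l) * pderiv l (g i))]
    simp only [hS2, Finset.sum_const_zero, add_zero, mul_assoc]
    rw [← Finset.mul_sum, (hg.hom i).sum_X_mul_pderiv, nsmul_eq_mul, C_mul, map_natCast]
    ring
  have hfin : (∏ i, g i) * C (c * (Fintype.card σ + β * (∑ i, a i * d i : ℕ))) = ∏ i, g i := by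
    rw [hdv] at hT
    have h1 : ∀ i ∈ (univ : Finset ι), C (β * a i) * ap H (g i) * ∏ j ∈ univ.erase i, g j =
        (∏ i, g i) * C (c * (β * (a i * d i))) := by
      intro i _
      rw [hap, ← Finset.mul_prod_erase univ g (mem_univ i)]
      simp only [C_mul]
      ring
    rw [Finset.sum_congr rfl h1, ← Finset.mul_sum, ← mul_add, ← map_sum, ← map_add] at hT
    rw [← hT]
    congr 2
    push_cast
    rw [Finset.mul_sum]
    rw [mul_add, Finset.mul_sum]
  rw [hβ, add_neg_cancel, mul_zero, C_0, mul_zero] at hfin
  exact hprod hfin.symm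

end Pool.Agent.Helper32_OMP.H66
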