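import Pool.Agent.Helper32_OMP.StmtB

/-!
# Module STAR
-/

set_option autoImplicit false
set_option linter.unusedSectionVars false

namespace Pool.Agent.Helper32_OMP.H66

open MvPolynomial Finset Pool.Agent.Helper6_Mono Pool.Agent.Helper32_OMP

section Mat

variable {R κ : Type} [CommRing R] {r : ℕ}

/-- the matrix with rows `u`, `v`, `B i`, columns selected by `S` -/
def mat2 (S : Fin (r + 1 + 1) → κ) (u v : κ → R) (B : Fin r → κ → R) :
    Matrix (Fin (r + 1 + 1)) (Fin (r + 1 + 1)) R :=
  Matrix.of (Fin.cons (fun k => u (S k)) (Fin.cons (fun k => v (S k)) (fun i k => B i (S k))))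

theorem mat2_zero (S : Fin (r + 1 + 1) → κ) (u v : κ → R) (B : Fin r → κ → R) :
    mat2 S u v B 0 = fun k => u (S k) := rfl

theorem mat2_one (S : Fin (r + 1 + 1) → κ) (u v : κ → R) (B : Fin r → κ → R) :
    mat2 S u v B 1 = fun k => v (S k) := rfl

theorem mat2_succ (S : Fin (r + 1 + 1) → κ) (u v : κ → R) (B : Fin r → κ → R) (i : Fin r) :
    mat2 S u v B i.succ.succ = fun k => B i (S k) := rfl

theorem mat2_update (S : Fin (r + 1 + 1) → κ) (u v w : κ → R) (B : Fin r → κ → R) :
    mat2 S u v B = (mat2 S u w B).updateRow 1 (fun k => v (S k)) := by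
  ext i k
  rcases Fin.eq_zero_or_eq_succ i with rfl | ⟨i, rfl⟩
  · rw [Matrix.updateRow_ne (by simp)]
    rfl
  · rcases Fin.eq_zero_or_eq_succ i with rfl | ⟨i, rfl⟩
    · rw [show (Fin.succ 0 : Fin (r + 1 + 1)) = 1 from rfl, Matrix.updateRow_self]
      rfl
    · rw [Matrix.updateRow_ne]
      · rfl
      · rw [show (1 : Fin (r + 1 + 1)) = Fin.succ 0 from rfl]
        intro h
        exact Fin.succ_ne_zero _ (Fin.succ_injective _ h)

/-- the determinant as a function of the second row -/
def detL (S : Fin (r + 1 + 1) → κ) (u : κ → R) (B : Fin r → κ → R) : (κ → R) →ₗ[R] R where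
  toFun v := (mat2 S u v B).det
  map_add' v w := by
    rw [mat2_update S u (v + w) 0, mat2_update S u v 0, mat2_update S u w 0,
      ← Matrix.det_updateRow_add]
    rfl
  map_smul' c v := by
    rw [mat2_update S u (c • v) 0, mat2_update S u v 0, RingHom.id_apply, smul_eq_mul,
      ← Matrix.det_updateRow_smul]
    rfl

theorem detL_apply (S : Fin (r + 1 + 1) → κ) (u v : κ → R) (B : Fin r → κ → R) :
    detL S u B v = (mat2 S u v B).det := rfl

theorem detL_swap (S : Fin (r + 1 + 1) → κ) (u v : κ → R) (B : Fin r → κ → R) :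
    detL S u B v = - detL S v B u := by
  rw [detL_apply, detL_apply]
  have h1 : mat2 S u v B = (mat2 S v u B).submatrix (Equiv.swap 0 1) id := by
    ext i k
    rw [Matrix.submatrix_apply]
    rcases Fin.eq_zero_or_eq_succ i with rfl | ⟨i, rfl⟩
    · rw [Equiv.swap_apply_left]
      rfl
    · rcases Fin.eq_zero_or_eq_succ i with rfl | ⟨i, rfl⟩
      · rw [show (Fin.succ 0 : Fin (r + 1 + 1)) = 1 from rfl, Equiv.swap_apply_right]
        rfl
      · rw [Equiv.swap_apply_of_ne_of_ne (Fin.succ_ne_zero _)]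
        · rfl
        · rw [show (1 : Fin (r + 1 + 1)) = Fin.succ 0 from rfl]
          intro h
          exact Fin.succ_ne_zero _ (Fin.succ_injective _ h)
  rw [h1, Matrix.det_permute, Equiv.Perm.sign_swap (by simp)]
  simp

theorem detL_eq_zero (S : Fin (r + 1 + 1) → κ) (u : κ → R) (B : Fin r → κ → R) (i : Fin r) :
    detL S u B (B i) = 0 := by
  rw [detL_apply]
  apply Matrix.det_zero_of_row_eq (i := 1) (j := i.succ.succ)
  · rw [show (1 : Fin (r + 1 + 1)) = Fin.succ 0 from rfl]
    intro h
    exact Fin.succ_ne_zero _ (Fin.succ_injective _ h).symm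
  · rfl

theorem brM_eq (A : Fin (r + 1) → κ → R) (S : Fin (r + 1 + 1) → κ) (e : κ → R) :
    brM A S e = mat2 S e (A 0) (fun i => A i.succ) := by
  ext i k
  rcases Fin.eq_zero_or_eq_succ i with rfl | ⟨i, rfl⟩
  · rfl
  · rcases Fin.eq_zero_or_eq_succ i with rfl | ⟨i, rfl⟩
    · rfl
    · rfl

end Mat

theorem isOrd_comp {σ ι κ : Type} {g : ι → MvPolynomial σ ℂ} {d : ι → ℕ} (h : IsOrd g d)
    (e : κ → ι) (he : Function.Injective e) : IsOrd (fun i => g (e i)) (fun i => d (e i)) where
  hom i := h.hom (e i)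
  pos i := h.pos (e i)
  snc z hz := by
    have h1 := h.snc z hz
    exact LinearIndependent.comp h1
      (fun i : {i // eval z (g (e i)) = 0} => (⟨e i.1, i.2⟩ : {i // eval z (g i) = 0}))
      (fun i j hij => Subtype.ext (he (congrArg Subtype.val hij)))

/-- MODULE STAR -/
theorem star (hL : LgenStmt) : StarStmt := by
  classical
  intro σ ι _ _ g d hg i₀ H hH
  obtain ⟨r, hr⟩ : ∃ r, Fintype.card ι = r + 1 :=
    ⟨Fintype.card ι - 1, by have := Fintype.card_pos_iff.mpr ⟨i₀⟩; omega⟩
  obtain ⟨e, he⟩ : ∃ e : Fin (r + 1) ≃ ι, e 0 = i₀ := by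
    let e₁ := (Fintype.equivFinOfCardEq hr).symm
    refine ⟨(Equiv.swap 0 (e₁.symm i₀)).trans e₁, ?_⟩
    simp
  obtain ⟨φ, cf, hcf⟩ := hL σ r (fun i => g (e i)) (fun i => d (e i))
    (isOrd_comp hg e e.injective) H (fun i => hH (e i))
  set A := rowsA (fun i => g (e i)) with hA
  let E : (σ ⊕ Fin r) → (σ ⊕ Fin r) → MvPolynomial σ ℂ := fun x => Pi.single x 1
  let B : Fin r → (σ ⊕ Fin r) → MvPolynomial σ ℂ := fun i => A i.succ
  refine ⟨φ, fun l' l => ∑ S, cf S * detL S (E (Sum.inl l)) B (E (Sum.inl l')), ?_, ?_, ?_⟩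
  · intro l l'
    rw [← Finset.sum_neg_distrib]
    refine Finset.sum_congr rfl fun S _ => ?_
    rw [detL_swap, mul_neg]
  · intro l
    rw [hcf l]
    congr 1
    have h1 : A 0 = ∑ l', pderiv l' (g i₀) • E (Sum.inl l') := by
      funext x
      rw [Finset.sum_apply]
      rcases x with x | x
      · simp only [Pi.smul_apply, smul_eq_mul, E, Pi.single_apply, Sum.inl.injEq, mul_ite,
          mul_one, mul_zero, Finset.sum_ite_eq, mem_univ, if_true]
        rw [hA, rowsA, Sum.elim_inl, he]
      · simp only [Pi.smul_apply, smul_eq_mul, E, Pi.single_apply, reduceCtorEq, if_false,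
          mul_zero, Finset.sum_const_zero]
        rw [hA, rowsA, Sum.elim_inr, if_neg (Fin.succ_ne_zero x).symm]
    have h2 : ∀ S, (brM A S (Pi.single (Sum.inl l) 1)).det =
        ∑ l', pderiv l' (g i₀) * detL S (E (Sum.inl l)) B (E (Sum.inl l')) := by
      intro S
      rw [brM_eq, ← detL_apply, h1, map_sum]
      refine Finset.sum_congr rfl fun l' _ => ?_
      rw [map_smul, smul_eq_mul]
    simp only [Finset.mul_sum]
    rw [Finset.sum_comm]
    refine Finset.sum_congr rfl fun S _ => ?_
    rw [h2, Finset.mul_sum]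
    refine Finset.sum_congr rfl fun l' _ => ?_
    ring
  · intro i hi l
    obtain ⟨j, hj⟩ : ∃ j : Fin r, e j.succ = i := by
      rcases Fin.eq_zero_or_eq_succ (e.symm i) with h | ⟨j, hj⟩
      · exfalso
        apply hi
        rw [← he, ← h, Equiv.apply_symm_apply]
      · exact ⟨j, by rw [← hj, Equiv.apply_symm_apply]⟩
    have h1 : ∑ l', pderiv l' (g i) • E (Sum.inl l') = B j + g i • E (Sum.inr j) := by
      funext x
      rw [Finset.sum_apply]
      rcases x with x | x
      · simp only [Pi.smul_apply, smul_eq_mul, E, Pi.single_apply, Sum.inl.injEq, mul_ite,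
          mul_one, mul_zero, Finset.sum_ite_eq, mem_univ, if_true, Pi.add_apply, reduceCtorEq,
          if_false, add_zero]
        show _ = A j.succ (Sum.inl x)
        rw [hA, rowsA, Sum.elim_inl, hj]
      · simp only [Pi.smul_apply, smul_eq_mul, E, Pi.single_apply, reduceCtorEq, if_false,
          mul_zero, Finset.sum_const_zero, Pi.add_apply, Sum.inr.injEq]
        show _ = A j.succ (Sum.inr x) + _
        rw [hA, rowsA, Sum.elim_inr, hj]
        by_cases hx : x = j
        · subst hx
          simp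
        · rw [if_neg, if_neg hx]
          · simp
          · intro h
            exact hx (Fin.succ_injective _ h).symm
    have h2 : ∀ S, ∑ l', pderiv l' (g i) * detL S (E (Sum.inl l)) B (E (Sum.inl l')) =
        g i * detL S (E (Sum.inl l)) B (E (Sum.inr j)) := by
      intro S
      have h3 := congrArg (detL S (E (Sum.inl l)) B) h1
      rw [map_sum, map_add, detL_eq_zero, map_smul, zero_add, smul_eq_mul] at h3
      rw [← h3]
      refine Finset.sum_congr rfl fun l' _ => ?_
      rw [map_smul, smul_eq_mul]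
    refine ⟨∑ S, cf S * detL S (E (Sum.inl l)) B (E (Sum.inr j)), ?_⟩
    simp only [Finset.mul_sum]
    rw [Finset.sum_comm]
    refine Finset.sum_congr rfl fun S _ => ?_
    have h3 : g i * (cf S * detL S (E (Sum.inl l)) B (E (Sum.inr j))) =
      cf S * (g i * detL S (E (Sum.inl l)) B (E (Sum.inr j))) := by ring
    rw [h3, ← h2, Finset.mul_sum]
    refine Finset.sum_congr rfl fun l' _ => ?_
    ring

end Pool.Agent.Helper32_OMP.H66
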