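import Pool.Agent.Helper66_OMP.Star
import Pool.Agent.Helper66_OMP.Cop
import Mathlib.RingTheory.MvPolynomial.EulerIdentity

/-!
# Module LINF: tools
-/

set_option autoImplicit false
set_option linter.unusedSectionVars false

namespace Pool.Agent.Helper32_OMP.H66

open MvPolynomial Finset Pool.Agent.Helper6_Mono Pool.Agent.Helper32_OMP

theorem hc_mul {σ : Type} {p q : MvPolynomial σ ℂ} {k m : ℕ} (hp : p.IsHomogeneous m) :
    homogeneousComponent (k + m) (q * p) = homogeneousComponent k q * p := by
  classical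
  ext e
  rw [coeff_homogeneousComponent, coeff_mul, coeff_mul]
  by_cases he : e.degree = k + m
  · rw [if_pos he]
    refine Finset.sum_congr rfl ?_
    rintro ⟨a, b⟩ hab
    rw [HasAntidiagonal.mem_antidiagonal] at hab
    by_cases hb : b.degree = m
    · have h1 : a.degree + b.degree = e.degree := by rw [← hab, map_add]
      have h2 : a.degree = k := by omega
      simp only [coeff_homogeneousComponent, h2, if_true]
    · simp [hp.coeff_eq_zero hb]
  · rw [if_neg he]
    symm
    refine Finset.sum_eq_zero ?_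
    rintro ⟨a, b⟩ hab
    rw [HasAntidiagonal.mem_antidiagonal] at hab
    by_cases hb : b.degree = m
    · have h1 : a.degree + b.degree = e.degree := by rw [← hab, map_add]
      have h2 : a.degree ≠ k := by omega
      simp only [coeff_homogeneousComponent, h2, if_false, zero_mul]
    · simp [hp.coeff_eq_zero hb]

theorem hc_mul_lt {σ : Type} {p q : MvPolynomial σ ℂ} {k m : ℕ} (hp : p.IsHomogeneous m)
    (hk : k < m) : homogeneousComponent k (q * p) = 0 := by
  classical
  ext e
  rw [coeff_homogeneousComponent, coeff_mul, coeff_zero]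
  by_cases he : e.degree = k
  · rw [if_pos he]
    refine Finset.sum_eq_zero ?_
    rintro ⟨a, b⟩ hab
    rw [HasAntidiagonal.mem_antidiagonal] at hab
    have h1 : a.degree + b.degree = e.degree := by rw [← hab, map_add]
    rw [hp.coeff_eq_zero (by omega : b.degree ≠ m), mul_zero]
  · rw [if_neg he]

theorem pderiv_comm' {σ : Type} (i j : σ) (p : MvPolynomial σ ℂ) :
    pderiv i (pderiv j p) = pderiv j (pderiv i p) := by
  classical
  have h : ⁅(pderiv i : Derivation ℂ (MvPolynomial σ ℂ) (MvPolynomial σ ℂ)),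
      (pderiv j : Derivation ℂ (MvPolynomial σ ℂ) (MvPolynomial σ ℂ))⁆ = 0 := by
    apply MvPolynomial.derivation_ext
    intro l
    rw [Derivation.commutator_apply, pderiv_X, pderiv_X, Pi.single_apply, Pi.single_apply]
    split_ifs <;> simp
  have h2 := congrArg (fun D => D p) h
  simp only [Derivation.commutator_apply, Derivation.zero_apply] at h2
  exact sub_eq_zero.mp h2

theorem leibniz_prod' {A ι : Type} [CommRing A] [Algebra ℂ A] (D : Derivation ℂ A A) [DecidableEq ι]
    (s : Finset ι) (f : ι → A) :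
    D (∏ i ∈ s, f i) = ∑ i ∈ s, D (f i) * ∏ j ∈ s.erase i, f j := by
  induction s using Finset.induction_on with
  | empty => simp
  | insert a s ha ih =>
    rw [Finset.prod_insert ha, Derivation.leibniz, smul_eq_mul, smul_eq_mul, ih,
      Finset.sum_insert ha, Finset.erase_insert ha, Finset.mul_sum]
    rw [add_comm]
    congr 1
    · ring
    · refine Finset.sum_congr rfl fun i hi => ?_
      have hai : a ≠ i := fun h => ha (h ▸ hi)
      rw [Finset.erase_insert_of_ne hai, Finset.prod_insert (by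
        intro h
        exact ha (Finset.mem_of_mem_erase h))]
      ring

section Mat

variable {σ : Type} {r : ℕ}

/-- the unit vectors -/
noncomputable def E (σ : Type) (r : ℕ) (x : σ ⊕ Fin r) : σ ⊕ Fin r → MvPolynomial σ ℂ :=
  fun y => open scoped Classical in if y = x then 1 else 0

theorem E_eq (x : σ ⊕ Fin r) :
    E σ r x = open scoped Classical in Pi.single x (1 : MvPolynomial σ ℂ) := by
  classical
  funext y
  rw [E, Pi.single_apply]

/-- the determinant is homogeneous -/
theorem det_hom (g : Fin (r + 1) → MvPolynomial σ ℂ) (d : Fin (r + 1) → ℕ)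
    (hg : ∀ i, (g i).IsHomogeneous (d i)) (hd : ∀ i, 0 < d i) (S : Fin (r + 1 + 1) → σ ⊕ Fin r)
    (x : σ) :
    (brM (rowsA g) S (E σ r (Sum.inl x))).det.IsHomogeneous
      (∑ i, (d i - 1) + ∑ k, if (S k).isRight then 1 else 0) := by
  classical
  rw [Matrix.det_apply']
  apply IsHomogeneous.sum
  intro π _
  have h1 : (((Equiv.Perm.sign π : ℤˣ) : ℤ) : MvPolynomial σ ℂ) =
      C (((Equiv.Perm.sign π : ℤˣ) : ℤ) : ℂ) := by
    rw [map_intCast]
  rw [h1]
  apply IsHomogeneous.C_mul
  let w : Fin (r + 1 + 1) → ℕ := Fin.cons 0 (fun i => d i - 1)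
  let ρ : Fin (r + 1 + 1) → ℕ := fun k => if (S k).isRight then 1 else 0
  have h2 : ∑ i, (d i - 1) + ∑ k, ρ k = ∑ k, (w (π k) + ρ k) := by
    rw [Finset.sum_add_distrib, Equiv.sum_comp π w, Fin.sum_univ_succ w]
    simp only [w, Fin.cons_zero, Fin.cons_succ, zero_add]
  show IsHomogeneous _ (∑ i, (d i - 1) + ∑ k, ρ k)
  rw [h2]
  apply IsHomogeneous.prod
  intro k _
  generalize π k = i
  rcases Fin.eq_zero_or_eq_succ i with rfl | ⟨i, rfl⟩
  · show IsHomogeneous (E σ r (Sum.inl x) (S k)) (0 + ρ k)
    simp only [ρ, E]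
    rcases S k with y | y
    · simp only [Sum.inl.injEq, Sum.isRight_inl, Bool.false_eq_true, if_false, add_zero]
      split_ifs
      · exact isHomogeneous_one _ _
      · exact isHomogeneous_zero _ _ _
    · simp only [reduceCtorEq, if_false]
      exact isHomogeneous_zero _ _ _
  · show IsHomogeneous (rowsA g i (S k)) ((d i - 1) + ρ k)
    simp only [ρ, rowsA]
    rcases S k with y | y
    · simp only [Sum.elim_inl, Sum.isRight_inl, Bool.false_eq_true, if_false, add_zero]
      exact (hg i).pderiv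
    · simp only [Sum.elim_inr, Sum.isRight_inr, if_true]
      have h3 : d i - 1 + 1 = d i := Nat.sub_add_cancel (hd i)
      rw [h3]
      split_ifs
      · exact (hg i).neg
      · exact isHomogeneous_zero _ _ _

theorem det_inj (g : Fin (r + 1) → MvPolynomial σ ℂ) (S : Fin (r + 1 + 1) → σ ⊕ Fin r)
    (u : σ ⊕ Fin r → MvPolynomial σ ℂ) (hS : ¬ Function.Injective S) :
    (brM (rowsA g) S u).det = 0 := by
  rw [Function.Injective] at hS
  push Not at hS
  obtain ⟨a, b, hab, hne⟩ := hS
  apply Matrix.det_zero_of_column_eq hne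
  intro k
  rcases Fin.eq_zero_or_eq_succ k with rfl | ⟨k, rfl⟩
  · show u (S a) = u (S b)
    rw [hab]
  · show rowsA g k (S a) = rowsA g k (S b)
    rw [hab]

theorem brM_update {R κ : Type} {r : ℕ} (A : Fin r → κ → R) (S : Fin (r + 1) → κ) (e e' : κ → R) :
    brM A S e = (brM A S e').updateRow 0 (fun k => e (S k)) := by
  ext i k
  rcases Fin.eq_zero_or_eq_succ i with rfl | ⟨i, rfl⟩
  · rw [Matrix.updateRow_self]
    rfl
  · rw [Matrix.updateRow_ne (Fin.succ_ne_zero i)]
    rfl

/-- the determinant as a function of the first row -/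
def detF {R κ : Type} [CommRing R] {r : ℕ} (A : Fin r → κ → R) (S : Fin (r + 1) → κ) :
    (κ → R) →ₗ[R] R where
  toFun v := (brM A S v).det
  map_add' v w := by
    rw [brM_update A S (v + w) 0, brM_update A S v 0, brM_update A S w 0,
      ← Matrix.det_updateRow_add]
    rfl
  map_smul' c v := by
    rw [brM_update A S (c • v) 0, brM_update A S v 0, RingHom.id_apply, smul_eq_mul,
      ← Matrix.det_updateRow_smul]
    rfl

theorem detF_apply {R κ : Type} [CommRing R] {r : ℕ} (A : Fin r → κ → R) (S : Fin (r + 1) → κ)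
    (v : κ → R) : detF A S v = (brM A S v).det := rfl

theorem detF_zero {R κ : Type} [CommRing R] {r : ℕ} (A : Fin r → κ → R) (S : Fin (r + 1) → κ)
    (v : κ → R) (i : Fin r) (h : ∀ k, v (S k) = A i (S k)) : detF A S v = 0 := by
  rw [detF_apply]
  apply Matrix.det_zero_of_row_eq (i := 0) (j := i.succ) (Fin.succ_ne_zero i).symm
  funext k
  exact h k

/-- the fields `det` with all columns in the first block kill the functions `g i` -/
theorem det_kill [Fintype σ] (g : Fin (r + 1) → MvPolynomial σ ℂ) (S : Fin (r + 1 + 1) → σ)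
    (i : Fin (r + 1)) :
    ∑ l, (brM (rowsA g) (fun k => Sum.inl (S k)) (E σ r (Sum.inl l))).det * pderiv l (g i) = 0 := by
  classical
  have h1 : detF (rowsA g) (fun k => Sum.inl (S k)) (∑ l, pderiv l (g i) • E σ r (Sum.inl l)) = 0 := by
    apply detF_zero (i := i)
    intro k
    rw [Finset.sum_apply]
    simp only [Pi.smul_apply, smul_eq_mul, E, Sum.inl.injEq, mul_ite, mul_one, mul_zero,
      Finset.sum_ite_eq, mem_univ, if_true]
    rfl
  rw [map_sum] at h1
  rw [← h1]
  refine Finset.sum_congr rfl fun l _ => ?_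
  rw [map_smul, smul_eq_mul, detF_apply]
  ring

/-- the fields `det` with all columns in the first block are divergence free -/
theorem det_div [Fintype σ] (g : Fin (r + 1) → MvPolynomial σ ℂ) (S : Fin (r + 1 + 1) → σ) :
    ∑ l, pderiv l (brM (rowsA g) (fun k => Sum.inl (S k)) (E σ r (Sum.inl l))).det = 0 := by
  classical
  -- expansion
  have h1 : ∀ l, (brM (rowsA g) (fun k => Sum.inl (S k)) (E σ r (Sum.inl l))).det =
      ∑ π : Equiv.Perm (Fin (r + 1 + 1)), C (((Equiv.Perm.sign π : ℤˣ) : ℤ) : ℂ) *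
        ((if S (π 0) = l then 1 else 0) * ∏ i : Fin (r + 1), pderiv (S (π i.succ)) (g i)) := by
    intro l
    rw [← Matrix.det_transpose, Matrix.det_apply']
    refine Finset.sum_congr rfl fun π _ => ?_
    rw [map_intCast]
    congr 1
    rw [Fin.prod_univ_succ]
    congr 1
    show E σ r (Sum.inl l) (Sum.inl (S (π 0))) = _
    rw [E]
    simp only [Sum.inl.injEq]
  have h2 : ∀ l, pderiv l (brM (rowsA g) (fun k => Sum.inl (S k)) (E σ r (Sum.inl l))).det =
      ∑ π : Equiv.Perm (Fin (r + 1 + 1)), C (((Equiv.Perm.sign π : ℤˣ) : ℤ) : ℂ) *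
        ((if S (π 0) = l then 1 else 0) *
          pderiv l (∏ i : Fin (r + 1), pderiv (S (π i.succ)) (g i))) := by
    intro l
    rw [h1, map_sum]
    refine Finset.sum_congr rfl fun π _ => ?_
    rw [pderiv_C_mul]
    congr 1
    split_ifs
    · rw [one_mul, one_mul]
    · rw [zero_mul, zero_mul, map_zero]
  have h3 : ∑ l, pderiv l (brM (rowsA g) (fun k => Sum.inl (S k)) (E σ r (Sum.inl l))).det =
      ∑ π : Equiv.Perm (Fin (r + 1 + 1)), C (((Equiv.Perm.sign π : ℤˣ) : ℤ) : ℂ) *
          pderiv (S (π 0)) (∏ i : Fin (r + 1), pderiv (S (π i.succ)) (g i)) := by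
    simp only [h2]
    rw [Finset.sum_comm]
    refine Finset.sum_congr rfl fun π _ => ?_
    rw [← Finset.mul_sum]
    congr 1
    simp only [ite_mul, one_mul, zero_mul, Finset.sum_ite_eq, mem_univ, if_true]
  rw [h3]
  simp only [leibniz_prod', Finset.mul_sum]
  rw [Finset.sum_comm]
  refine Finset.sum_eq_zero fun i _ => ?_
  set F : Equiv.Perm (Fin (r + 1 + 1)) → MvPolynomial σ ℂ := fun π =>
    C (((Equiv.Perm.sign π : ℤˣ) : ℤ) : ℂ) * (pderiv (S (π 0)) (pderiv (S (π i.succ)) (g i)) *
      ∏ j ∈ univ.erase i, pderiv (S (π j.succ)) (g j)) with hF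
  show ∑ π, F π = 0
  have h4 : ∀ π, F (π * Equiv.swap 0 i.succ) = - F π := by
    intro π
    have h5 : Equiv.Perm.sign (Equiv.swap (0 : Fin (r + 1 + 1)) i.succ) = -1 :=
      Equiv.Perm.sign_swap (Fin.succ_ne_zero i).symm
    simp only [hF, Equiv.Perm.mul_apply, Equiv.swap_apply_left, Equiv.swap_apply_right,
      Equiv.Perm.sign_mul, h5]
    have h6 : ∏ j ∈ univ.erase i, pderiv (S (π ((Equiv.swap (0 : Fin (r + 1 + 1)) i.succ) j.succ)))
        (g j) = ∏ j ∈ univ.erase i, pderiv (S (π j.succ)) (g j) := by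
      refine Finset.prod_congr rfl fun j hj => ?_
      rw [Equiv.swap_apply_of_ne_of_ne (Fin.succ_ne_zero j)]
      intro h
      exact ne_of_mem_erase hj (Fin.succ_injective _ h)
    rw [h6, pderiv_comm']
    simp
  have h5 : ∑ π, F π = - ∑ π, F π := by
    calc ∑ π, F π = ∑ π, F (π * Equiv.swap 0 i.succ) :=
          (Equiv.sum_comp (Equiv.mulRight (Equiv.swap 0 i.succ)) F).symm
      _ = - ∑ π, F π := by
          rw [← Finset.sum_neg_distrib]
          exact Finset.sum_congr rfl fun π _ => h4 π
  exact self_eq_neg.mp h5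

end Mat

end Pool.Agent.Helper32_OMP.H66
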