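import Pool.Agent.Helper32_OMP.StmtB

/-!
# Modules ZERO and COP
-/

set_option autoImplicit false

namespace Pool.Agent.Helper32_OMP.H66

open MvPolynomial Finset Pool.Agent.Helper6_Mono Pool.Agent.Helper32_OMP

theorem exists_pderiv_ne {σ : Type} (q : MvPolynomial σ ℂ) (hq : ∀ c : ℂ, q ≠ C c) :
    ∃ l, pderiv l q ≠ 0 := by
  classical
  by_contra hcon
  push Not at hcon
  apply hq (coeff 0 q)
  ext m
  rw [coeff_C]
  split_ifs with hm
  · rw [← hm]
  · have h1 : ∃ l, m l ≠ 0 := by
      by_contra h2
      push Not at h2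
      exact hm (Finsupp.ext fun l => (h2 l).symm)
    obtain ⟨l, hl⟩ := h1
    have h3 := coeff_pderiv (i := l) q (m - Finsupp.single l 1)
    rw [hcon l, coeff_zero] at h3
    have h4 : m - Finsupp.single l 1 + Finsupp.single l 1 = m := by
      ext j
      simp only [Finsupp.coe_add, Finsupp.coe_tsub, Pi.add_apply, Pi.sub_apply,
        Finsupp.single_apply]
      split_ifs with hj
      · subst hj
        omega
      · omega
    rw [h4] at h3
    rcases mul_eq_zero.mp h3.symm with h | h
    · exact h
    · exact absurd h (Nat.cast_add_one_ne_zero _)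

/-- restriction to the line through `w` parallel to the coordinate axis `l` -/
noncomputable def lin {σ : Type} [DecidableEq σ] (w : σ → ℂ) (l : σ) :
    MvPolynomial σ ℂ →ₐ[ℂ] Polynomial ℂ :=
  aeval fun i => if i = l then Polynomial.X else Polynomial.C (w i)

theorem lin_eval {σ : Type} [DecidableEq σ] (w : σ → ℂ) (l : σ) (x : ℂ) (q : MvPolynomial σ ℂ) :
    (lin w l q).eval x = eval (Function.update w l x) q := by
  induction q using MvPolynomial.induction_on with
  | C a =>
    rw [eval_C, ← algebraMap_eq, AlgHom.commutes, Polynomial.algebraMap_apply]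
    simp
  | add p q hp hq => rw [map_add, Polynomial.eval_add, hp, hq, map_add]
  | mul_X p i hp =>
    rw [map_mul, Polynomial.eval_mul, hp, map_mul]
    congr 1
    rw [lin, aeval_X, eval_X]
    split_ifs with h
    · subst h
      simp
    · simp [Function.update_of_ne h]

theorem lin_deriv {σ : Type} [DecidableEq σ] (w : σ → ℂ) (l : σ) (q : MvPolynomial σ ℂ) :
    Polynomial.derivative (lin w l q) = lin w l (pderiv l q) := by
  induction q using MvPolynomial.induction_on with
  | C a =>
    rw [pderiv_C, map_zero, ← algebraMap_eq, AlgHom.commutes, Polynomial.algebraMap_apply]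
    simp
  | add p q hp hq => simp only [map_add, hp, hq]
  | mul_X p i hp =>
    rw [map_mul, Polynomial.derivative_mul, hp, Derivation.leibniz, smul_eq_mul, smul_eq_mul,
      map_add, map_mul, map_mul]
    have h1 : Polynomial.derivative (lin w l (X i)) = lin w l (pderiv l (X i)) := by
      rw [pderiv_X, lin, aeval_X]
      by_cases h : i = l
      · subst h
        simp
      · rw [if_neg h, Pi.single_apply, if_neg h]
        simp
    rw [h1]
    ring

/-- MODULE ZERO -/
theorem zero : ZeroStmt := by
  classical
  intro σ _ hcard q hq T hT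
  obtain ⟨l, hl⟩ := exists_pderiv_ne q hq
  obtain ⟨l', hl'⟩ : ∃ l', l' ≠ l := by
    have : Nontrivial σ := Fintype.one_lt_card_iff_nontrivial.mp (by omega)
    exact exists_ne l
  have h1 : pderiv l q * ∏ t ∈ hT.toFinset, (X l' - C (t l')) ≠ 0 := by
    apply mul_ne_zero hl
    rw [Finset.prod_ne_zero_iff]
    intro t _ h2
    have h3 := congrArg (eval (fun _ => t l' + 1)) h2
    simp at h3
  obtain ⟨w, hw⟩ : ∃ w, eval w (pderiv l q * ∏ t ∈ hT.toFinset, (X l' - C (t l'))) ≠ 0 := by
    by_contra hcon
    push Not at hcon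
    apply h1
    apply MvPolynomial.funext
    intro x
    rw [hcon x, map_zero]
  rw [map_mul] at hw
  have hw1 : eval w (pderiv l q) ≠ 0 := left_ne_zero_of_mul hw
  have hw2 : ∀ t ∈ T, w l' ≠ t l' := by
    intro t ht h2
    apply right_ne_zero_of_mul hw
    rw [map_prod]
    apply Finset.prod_eq_zero (hT.mem_toFinset.mpr ht)
    rw [map_sub, eval_X, eval_C, h2, sub_self]
  have h2 : (lin w l q).degree ≠ 0 := by
    intro h3
    have h4 := lin_deriv w l q
    rw [Polynomial.eq_C_of_degree_eq_zero h3, Polynomial.derivative_C] at h4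
    apply hw1
    have h5 := lin_eval w l (w l) (pderiv l q)
    rw [← h4, Function.update_eq_self] at h5
    rw [← h5, Polynomial.eval_zero]
  obtain ⟨x, hx⟩ := IsAlgClosed.exists_root _ h2
  refine ⟨Function.update w l x, ?_, ?_⟩
  · intro h3
    apply hw2 _ h3
    rw [Function.update_of_ne hl']
  · rw [← lin_eval]
    exact hx

end Pool.Agent.Helper32_OMP.H66
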